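import Pool.Agent.K1H54.NU.Stm2
import Pool.Agent.K1H63.NU.TREN

/-!
Project NU: the energy inequality before the blow-up time.
-/

open Set Filter Topology MeasureTheory
open scoped ENNReal NNReal

set_option autoImplicit false

namespace Pool.Agent.K1H99.NU

open Pool.Agent.K1H54.NU Pool.Agent.K1H63.NU
open Pool.Agent.Y5 Pool.Agent.Y5.D Pool.Agent.Y5.E Pool.Agent.K1H54.LO Pool.Agent.K1H54.L2

section sums

variable {I : Type} (sh : I → ℕ) (ty : I → Bool) (ρ : ℕ → ℕ)

/-- Cauchy-Schwarz for the amplitude of a flat packet -/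
theorem ap_sq_le (h : ∀ n b, {i | sh i = n ∧ ty i = b}.Finite)
    (hc : ∀ n b, {i | sh i = n ∧ ty i = b}.ncard = ρ n) (hp : ∀ n, 0 < ρ n) (b : Bool) (n : ℕ)
    (z : I → ℝ) : ap sh ty ρ b n z ^ 2 ≤ ∑ i ∈ (h n b).toFinset, z i ^ 2 := by
  have h1 : ap sh ty ρ b n z = ∑ i ∈ (h n b).toFinset, (√(ρ n : ℝ))⁻¹ * z i := by
    unfold ap
    rw [tsum_eq_sum (s := (h n b).toFinset)]
    · refine Finset.sum_congr rfl fun i hi => ?_
      rw [Set.Finite.mem_toFinset] at hi
      have hi' : sh i = n ∧ ty i = b := hi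
      unfold fl
      rw [if_pos hi']
    · intro i hi
      rw [Set.Finite.mem_toFinset] at hi
      have hi' : ¬ (sh i = n ∧ ty i = b) := hi
      unfold fl
      rw [if_neg hi', zero_mul]
  rw [h1]
  refine (Finset.sum_mul_sq_le_sq_mul_sq _ _ _).trans ?_
  have h2 : ∑ _i ∈ (h n b).toFinset, ((√(ρ n : ℝ))⁻¹) ^ 2 = 1 := by
    rw [Finset.sum_const, nsmul_eq_mul]
    have h3 : (h n b).toFinset.card = ρ n := by
      rw [← hc n b, Set.ncard_eq_toFinset_card _ (h n b)]
    have h4 : (0:ℝ) < ρ n := by exact_mod_cast hp n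
    rw [h3, inv_pow, Real.sq_sqrt h4.le, mul_inv_cancel₀ h4.ne']
  rw [h2, one_mul]

end sums

variable (G : GS)

/-- the flux of energy out of the shells `≤ N` -/
theorem flux (N : ℕ) (x : G.I ⊕ G.J → ℝ) :
    ∑ i ∈ SS G N, x i * G.vf x i =
      -(G.c N * G.Z N x ^ 2 * G.Y (N + 1) x - G.r N * G.P N x * G.P (N + 1) x ^ 2) := by
  unfold SS
  rw [Finset.sum_disjSum]
  have e1 := shell_sum G.sh G.ty G.ρ (N := N) (fin_le G.sh G.ty G.fin N).toFinset
    (fun i => by simp) (fun i => x (Sum.inl i))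
    (fun n => (if n = 0 then 0 else G.c (n - 1) * G.Z (n - 1) x ^ 2) - G.c n * G.Z n x ^ 2
        - G.ε * G.c n * (G.Y n x * G.Z n x))
    (fun n => G.c n * (G.Z n x * (G.Y n x - G.Y (n + 1) x)) + G.ε * G.c n * G.Y n x ^ 2
        - G.r n * G.P n x ^ 2)
  have e2 := shell_sum G.sh' G.ty' G.ρ' (N := N) (fin_le G.sh' G.ty' G.fin' N).toFinset
    (fun i => by simp) (fun i => x (Sum.inr i))
    (fun n => G.r n * (G.P n x * G.Z n x + G.P (n + 1) x ^ 2)
        - (if n = 0 then 0 else G.r (n - 1) * (G.P n x * G.P (n - 1) x)))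
    (fun _ => 0)
  have e1' : ∑ i ∈ (fin_le G.sh G.ty G.fin N).toFinset, x (Sum.inl i) * G.vf x (Sum.inl i) =
      _ := e1
  have e2' : ∑ i ∈ (fin_le G.sh' G.ty' G.fin' N).toFinset, x (Sum.inr i) * G.vf x (Sum.inr i) =
      _ := e2
  rw [e1', e2', ← Finset.sum_add_distrib]
  have key : ∀ K : ℕ, ∑ n ∈ Finset.range (K + 1),
      (((if n = 0 then 0 else G.c (n - 1) * G.Z (n - 1) x ^ 2) - G.c n * G.Z n x ^ 2
        - G.ε * G.c n * (G.Y n x * G.Z n x)) * ap G.sh G.ty G.ρ true n (fun i => x (Sum.inl i))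
        + (G.c n * (G.Z n x * (G.Y n x - G.Y (n + 1) x)) + G.ε * G.c n * G.Y n x ^ 2
        - G.r n * G.P n x ^ 2) * ap G.sh G.ty G.ρ false n (fun i => x (Sum.inl i))
      + ((G.r n * (G.P n x * G.Z n x + G.P (n + 1) x ^ 2)
        - (if n = 0 then 0 else G.r (n - 1) * (G.P n x * G.P (n - 1) x))) *
          ap G.sh' G.ty' G.ρ' true n (fun i => x (Sum.inr i))
        + 0 * ap G.sh' G.ty' G.ρ' false n (fun i => x (Sum.inr i)))) =
      -(G.c K * G.Z K x ^ 2 * G.Y (K + 1) x - G.r K * G.P K x * G.P (K + 1) x ^ 2) := by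
    intro K
    induction K with
    | zero =>
      rw [Finset.sum_range_one]
      change ((if 0 = 0 then 0 else G.c (0 - 1) * G.Z (0 - 1) x ^ 2) - G.c 0 * G.Z 0 x ^ 2
        - G.ε * G.c 0 * (G.Y 0 x * G.Z 0 x)) * G.Y 0 x
        + (G.c 0 * (G.Z 0 x * (G.Y 0 x - G.Y (0 + 1) x)) + G.ε * G.c 0 * G.Y 0 x ^ 2
        - G.r 0 * G.P 0 x ^ 2) * G.Z 0 x
        + ((G.r 0 * (G.P 0 x * G.Z 0 x + G.P (0 + 1) x ^ 2)
        - (if 0 = 0 then 0 else G.r (0 - 1) * (G.P 0 x * G.P (0 - 1) x))) * G.P 0 x + 0 * _) = _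
      simp only [if_true]
      ring
    | succ K ih =>
      rw [Finset.sum_range_succ, ih]
      change _ + (((if K + 1 = 0 then 0 else G.c (K + 1 - 1) * G.Z (K + 1 - 1) x ^ 2)
        - G.c (K + 1) * G.Z (K + 1) x ^ 2
        - G.ε * G.c (K + 1) * (G.Y (K + 1) x * G.Z (K + 1) x)) * G.Y (K + 1) x
        + (G.c (K + 1) * (G.Z (K + 1) x * (G.Y (K + 1) x - G.Y (K + 1 + 1) x))
        + G.ε * G.c (K + 1) * G.Y (K + 1) x ^ 2
        - G.r (K + 1) * G.P (K + 1) x ^ 2) * G.Z (K + 1) x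
        + ((G.r (K + 1) * (G.P (K + 1) x * G.Z (K + 1) x + G.P (K + 1 + 1) x ^ 2)
        - (if K + 1 = 0 then 0 else G.r (K + 1 - 1) * (G.P (K + 1) x * G.P (K + 1 - 1) x)))
          * G.P (K + 1) x + 0 * _)) = _
      rw [if_neg (Nat.succ_ne_zero K), if_neg (Nat.succ_ne_zero K), Nat.add_sub_cancel]
      ring
  exact key N

theorem SS_mono : Monotone (SS G) := fun _ _ hmn _ hi =>
  (mem_SS G).2 (((mem_SS G).1 hi).trans hmn)

theorem SS_tendsto : Tendsto (SS G) atTop atTop :=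
  tendsto_atTop_finset_of_monotone (SS_mono G) fun i => ⟨G.s i, (mem_SS G).2 le_rfl⟩

theorem en_tendsto (x : G.I ⊕ G.J → ℝ) :
    Tendsto (fun m => ENNReal.ofReal (∑ i ∈ SS G m, x i ^ 2)) atTop (𝓝 (G.en x)) := by
  have h := (ENNReal.summable (f := fun i => ENNReal.ofReal (x i ^ 2))).hasSum.comp (SS_tendsto G)
  refine h.congr fun m => ?_
  rw [ENNReal.ofReal_sum_of_nonneg fun i _ => sq_nonneg _]
  rfl

theorem ds_tendsto (x : G.I ⊕ G.J → ℝ) :
    Tendsto (fun m => ENNReal.ofReal (∑ i ∈ SS G m, G.D i * x i ^ 2)) atTop (𝓝 (G.ds x)) := by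
  have h := (ENNReal.summable (f := fun i => ENNReal.ofReal (G.D i * x i ^ 2))).hasSum.comp
    (SS_tendsto G)
  refine h.congr fun m => ?_
  rw [ENNReal.ofReal_sum_of_nonneg fun i _ => mul_nonneg (D_nonneg G i) (sq_nonneg _)]
  rfl

theorem en_le (x : G.I ⊕ G.J → ℝ) (m : ℕ) :
    ENNReal.ofReal (∑ i ∈ SS G m, x i ^ 2) ≤ G.en x := by
  rw [ENNReal.ofReal_sum_of_nonneg fun i _ => sq_nonneg _]
  exact ENNReal.sum_le_tsum _

/-- the energy inequality in the limit, abstractly -/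
theorem limit_step {x : ℝ → G.I ⊕ G.J → ℝ} {T : ℝ}
    (ode : ∀ i, ∀ t ∈ Ico 0 T, HasDerivWithinAt (fun τ => x τ i)
      (-(G.D i * x t i) + G.vf (x t) i) (Ico 0 T) t)
    (hP : ∀ t n, G.P n (x t) = 0) {s t : ℝ} (hs : s ∈ Ico 0 T) (ht : t ∈ Ico s T)
    {e : ℕ → ℝ} (he : Tendsto e atTop (𝓝 0))
    (hf : ∀ᶠ m in atTop, ∀ τ ∈ Icc s t, |G.c m * G.Z m (x τ) ^ 2 * G.Y (m + 1) (x τ)| ≤ e m) :
    G.en (x t) + 2 * ∫⁻ τ in Ioc s t, G.ds (x τ) ≤ G.en (x s) := by
  have hst := ht.1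
  have hc : ∀ i, ContinuousOn (fun τ => x τ i) (Icc s t) := fun i τ hτ =>
    ((ode i τ ⟨hs.1.trans hτ.1, hτ.2.trans_lt ht.2⟩).continuousWithinAt).mono fun u hu =>
      ⟨hs.1.trans hu.1, hu.2.trans_lt ht.2⟩
  have hcD : ∀ m, ContinuousOn (fun τ => ∑ i ∈ SS G m, G.D i * x τ i ^ 2) (Icc s t) := fun m =>
    continuousOn_finsetSum _ fun i _ => continuousOn_const.mul ((hc i).pow 2)
  have hcE : ∀ m, ContinuousOn (fun τ => ∑ i ∈ SS G m, x τ i ^ 2) (Icc s t) := fun m =>
    continuousOn_finsetSum _ fun i _ => (hc i).pow 2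
  -- the inequality for finitely many shells
  have step : ∀ᶠ m in atTop, ENNReal.ofReal (∑ i ∈ SS G m, x t i ^ 2) +
      2 * ∫⁻ τ in Ioc s t, ENNReal.ofReal (∑ i ∈ SS G m, G.D i * x τ i ^ 2) ≤
        G.en (x s) + ENNReal.ofReal (2 * (t - s) * e m) := by
    filter_upwards [hf] with m hm
    have hder : ∀ τ ∈ Ioo s t, HasDerivAt (fun τ => ∑ i ∈ SS G m, x τ i ^ 2)
        (-(2 * ∑ i ∈ SS G m, G.D i * x τ i ^ 2) -
          2 * (G.c m * G.Z m (x τ) ^ 2 * G.Y (m + 1) (x τ))) τ := by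
      intro τ hτ
      have h0 : τ ∈ Ioo 0 T := ⟨lt_of_le_of_lt hs.1 hτ.1, hτ.2.trans ht.2⟩
      have h1 : HasDerivAt (fun τ => ∑ i ∈ SS G m, x τ i ^ 2)
          (∑ i ∈ SS G m, (2 : ℕ) * x τ i ^ (2 - 1) * (-(G.D i * x τ i) + G.vf (x τ) i)) τ := by
        have := HasDerivAt.fun_sum (u := SS G m) (A := fun i τ => x τ i ^ 2)
          (A' := fun i => (2 : ℕ) * x τ i ^ (2 - 1) * (-(G.D i * x τ i) + G.vf (x τ) i))
          (x := τ) fun i _ =>
            ((ode i τ ⟨h0.1.le, h0.2⟩).hasDerivAt (Ico_mem_nhds h0.1 h0.2)).pow 2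
        exact this
      refine h1.congr_deriv ?_
      have h2 := flux G m (x τ)
      rw [hP τ m] at h2
      have h3 : ∀ i ∈ SS G m, (2 : ℕ) * x τ i ^ (2 - 1) * (-(G.D i * x τ i) + G.vf (x τ) i) =
          -(2 * (G.D i * x τ i ^ 2)) + 2 * (x τ i * G.vf (x τ) i) := by
        intro i _
        push_cast
        ring
      rw [Finset.sum_congr rfl h3, Finset.sum_add_distrib, ← Finset.mul_sum, h2,
        Finset.sum_neg_distrib, ← Finset.mul_sum]
      ring
    -- use monotonicity of an auxiliary function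
    have hmono : AntitoneOn (fun τ => (∑ i ∈ SS G m, x τ i ^ 2) +
        2 * (∫ u in s..τ, ∑ i ∈ SS G m, G.D i * x u i ^ 2) - 2 * (τ - s) * e m) (Icc s t) := by
      apply antitoneOn_of_deriv_nonpos (convex_Icc s t)
      · refine ((hcE m).add (continuousOn_const.mul ?_)).sub (by fun_prop)
        have hii : IntervalIntegrable (fun u => ∑ i ∈ SS G m, G.D i * x u i ^ 2) volume s t :=
          (hcD m).intervalIntegrable_of_Icc hst
        have := intervalIntegral.continuousOn_primitive_interval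
          (f := fun u => ∑ i ∈ SS G m, G.D i * x u i ^ 2) (μ := volume) (a := s) (b := t)
          (by rw [uIcc_of_le hst]; exact (hcD m).integrableOn_Icc)
        rwa [uIcc_of_le hst] at this
      · intro τ hτ
        rw [interior_Icc] at hτ
        have d1 := hder τ hτ
        have d2 : HasDerivAt (fun τ => ∫ u in s..τ, ∑ i ∈ SS G m, G.D i * x u i ^ 2)
            (∑ i ∈ SS G m, G.D i * x τ i ^ 2) τ := by
          apply intervalIntegral.integral_hasDerivAt_right
          · exact ((hcD m).mono (Icc_subset_Icc le_rfl hτ.2.le)).intervalIntegrable_of_Icc hτ.1.le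
          · exact ContinuousOn.stronglyMeasurableAtFilter isOpen_Ioo
              ((hcD m).mono Ioo_subset_Icc_self) τ hτ
          · exact (hcD m).continuousAt (Icc_mem_nhds hτ.1 hτ.2)
        have d3 : HasDerivAt (fun τ : ℝ => 2 * (τ - s) * e m) (2 * e m) τ := by
          have := (((hasDerivAt_id τ).sub_const s).const_mul 2).mul_const (e m)
          simpa using this
        exact (((d1.add (d2.const_mul 2)).sub d3).differentiableAt).differentiableWithinAt
      · intro τ hτ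
        rw [interior_Icc] at hτ
        have d1 := hder τ hτ
        have d2 : HasDerivAt (fun τ => ∫ u in s..τ, ∑ i ∈ SS G m, G.D i * x u i ^ 2)
            (∑ i ∈ SS G m, G.D i * x τ i ^ 2) τ := by
          apply intervalIntegral.integral_hasDerivAt_right
          · exact ((hcD m).mono (Icc_subset_Icc le_rfl hτ.2.le)).intervalIntegrable_of_Icc hτ.1.le
          · exact ContinuousOn.stronglyMeasurableAtFilter isOpen_Ioo
              ((hcD m).mono Ioo_subset_Icc_self) τ hτ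
          · exact (hcD m).continuousAt (Icc_mem_nhds hτ.1 hτ.2)
        have d3 : HasDerivAt (fun τ : ℝ => 2 * (τ - s) * e m) (2 * e m) τ := by
          have := (((hasDerivAt_id τ).sub_const s).const_mul 2).mul_const (e m)
          simpa using this
        have d4 := ((d1.add (d2.const_mul 2)).sub d3).deriv
        have d5 : deriv (fun τ => (∑ i ∈ SS G m, x τ i ^ 2) +
            2 * (∫ u in s..τ, ∑ i ∈ SS G m, G.D i * x u i ^ 2) - 2 * (τ - s) * e m) τ = _ := d4
        rw [d5]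
        have := (abs_le.1 (hm τ ⟨hτ.1.le, hτ.2.le⟩)).1
        linarith
    have hle := hmono ⟨le_rfl, hst⟩ ⟨hst, le_rfl⟩ hst
    simp only [intervalIntegral.integral_same, mul_zero, add_zero, sub_self, zero_mul,
      sub_zero] at hle
    have hint2 : IntegrableOn (fun τ => ∑ i ∈ SS G m, G.D i * x τ i ^ 2) (Ioc s t) volume :=
      ((hcD m).integrableOn_Icc).mono_set Ioc_subset_Icc_self
    rw [intervalIntegral.integral_of_le hst] at hle
    have hI : 0 ≤ ∫ τ in Ioc s t, ∑ i ∈ SS G m, G.D i * x τ i ^ 2 :=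
      integral_nonneg fun τ => Finset.sum_nonneg fun i _ =>
        mul_nonneg (D_nonneg G i) (sq_nonneg _)
    rw [← ofReal_integral_eq_lintegral_ofReal hint2
      (Eventually.of_forall fun τ => Finset.sum_nonneg fun i _ =>
        mul_nonneg (D_nonneg G i) (sq_nonneg _))]
    have h2 : (2 : ℝ≥0∞) = ENNReal.ofReal 2 := by simp
    rw [h2, ← ENNReal.ofReal_mul (by norm_num), ← ENNReal.ofReal_add
      (Finset.sum_nonneg fun i _ => sq_nonneg _) (by positivity)]
    have h3 : (∑ i ∈ SS G m, x t i ^ 2) + 2 * ∫ τ in Ioc s t, ∑ i ∈ SS G m, G.D i * x τ i ^ 2 ≤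
        (∑ i ∈ SS G m, x s i ^ 2) + 2 * (t - s) * e m := by linarith
    refine (ENNReal.ofReal_le_ofReal h3).trans ?_
    refine ENNReal.ofReal_add_le.trans ?_
    gcongr
    exact en_le G (x s) m
  -- the limit
  have l1 := en_tendsto G (x t)
  have l2 : Tendsto (fun m => ∫⁻ τ in Ioc s t, ENNReal.ofReal (∑ i ∈ SS G m, G.D i * x τ i ^ 2))
      atTop (𝓝 (∫⁻ τ in Ioc s t, G.ds (x τ))) := by
    apply lintegral_tendsto_of_tendsto_of_monotone
    · intro m
      exact (((hcD m).mono Ioc_subset_Icc_self).aemeasurable measurableSet_Ioc).ennreal_ofReal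
    · refine Eventually.of_forall fun τ => ?_
      intro m n hmn
      apply ENNReal.ofReal_le_ofReal
      exact Finset.sum_le_sum_of_subset_of_nonneg (SS_mono G hmn) fun i _ _ =>
        mul_nonneg (D_nonneg G i) (sq_nonneg _)
    · exact Eventually.of_forall fun τ => ds_tendsto G (x τ)
  have l3 : Tendsto (fun m => G.en (x s) + ENNReal.ofReal (2 * (t - s) * e m)) atTop
      (𝓝 (G.en (x s))) := by
    have h1 : Tendsto (fun m => ENNReal.ofReal (2 * (t - s) * e m)) atTop (𝓝 0) := by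
      have := ENNReal.tendsto_ofReal (he.const_mul (2 * (t - s)))
      rwa [mul_zero, ENNReal.ofReal_zero] at this
    have := (tendsto_const_nhds (x := G.en (x s)) (f := (atTop : Filter ℕ))).add h1
    rwa [add_zero] at this
  refine le_of_tendsto_of_tendsto (l1.add (ENNReal.Tendsto.const_mul l2 (Or.inr (by norm_num))))
    l3 step

theorem ext_support {G : GS} (n₀ : ℕ) (y : Sub G.sh n₀ → ℝ) :
    (Function.support fun i => ENNReal.ofReal (ext n₀ y i ^ 2)) ⊆
      range fun a : Sub G.sh n₀ => (Sum.inl a.1 : G.I ⊕ G.J) := by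
  intro i hi
  rcases i with i | j
  · by_cases h : n₀ ≤ G.sh i
    · exact ⟨⟨i, h⟩, rfl⟩
    · exfalso
      apply hi
      simp [K1H54.NU.ext, h]
  · exfalso
    apply hi
    simp [K1H54.NU.ext]

theorem t_EXC (hA : S_EXA) : S_EXC := by
  intro G lam c₀ n₀ T z hlam hc₀ hcn _ hT hsol hrap
  have ode := hA G lam c₀ n₀ T z hlam hc₀ hcn hT hsol
  have hl0 : 0 < lam := by linarith
  refine ⟨?_, ?_⟩
  · obtain ⟨M, hM⟩ := hrap 0 (T / 2) (by linarith)
    have h0 := (hM 0 ⟨le_rfl, by linarith⟩).1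
    have hs : Summable fun a : Sub G.sh n₀ => z a 0 ^ 2 := by
      refine h0.congr fun a => ?_
      simp
    have hinj : Function.Injective fun a : Sub G.sh n₀ => (Sum.inl a.1 : G.I ⊕ G.J) := by
      intro a b hab
      exact Subtype.ext (Sum.inl_injective hab)
    have e := hinj.tsum_eq (ext_support n₀ fun a => z a 0)
    unfold GS.en
    rw [← e]
    have e2 : ∀ a : Sub G.sh n₀, ext n₀ (fun a => z a 0) (Sum.inl a.1 : G.I ⊕ G.J) = z a 0 := by
      intro a
      simp [K1H54.NU.ext, a.2]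
    simp only [e2]
    rw [← ENNReal.ofReal_tsum_of_nonneg (fun a => sq_nonneg _) hs]
    exact ENNReal.ofReal_ne_top
  · intro s hs t ht
    obtain ⟨M₀, hM₀⟩ := hrap 0 t ht.2
    obtain ⟨M₁, hM₁⟩ := hrap 1 t ht.2
    have h0t : 0 ≤ t := hs.1.trans ht.1
    have hM₀0 : 0 ≤ M₀ := le_trans (tsum_nonneg fun a => sq_nonneg _) (hM₀ t ⟨h0t, le_rfl⟩).2
    have hM₁0 : 0 ≤ M₁ := le_trans (tsum_nonneg fun a => sq_nonneg _) (hM₁ t ⟨h0t, le_rfl⟩).2
    refine limit_step G (e := fun m => c₀ * lam ^ m * (M₁ / (lam ^ (m - n₀)) ^ 2) * √M₀) ode ?_ hs ht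
      ?_ ?_
    · intro τ n
      unfold GS.P ap
      simp [K1H54.NU.ext]
    · have h1 : Tendsto (fun q : ℕ => (c₀ * lam ^ n₀ * M₁ * √M₀) * (lam⁻¹) ^ q) atTop (𝓝 0) := by
        have := (tendsto_pow_atTop_nhds_zero_of_lt_one (inv_nonneg.2 hl0.le)
          (inv_lt_one_of_one_lt₀ hlam)).const_mul (c₀ * lam ^ n₀ * M₁ * √M₀)
        rwa [mul_zero] at this
      rw [← tendsto_add_atTop_iff_nat n₀]
      refine h1.congr fun q => ?_
      rw [Nat.add_sub_cancel, pow_add, inv_pow]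
      have : lam ^ q ≠ 0 := (pow_pos hl0 q).ne'
      field_simp
    · filter_upwards [eventually_ge_atTop n₀] with m hm τ hτ
      have hτ' : τ ∈ Icc 0 t := ⟨hs.1.trans hτ.1, hτ.2⟩
      -- the sum over a shell
      have shell : ∀ (n : ℕ) (b : Bool), n₀ ≤ n → ∀ k : ℕ, ∀ M, Sk (fun i : Sub G.sh n₀ => lam ^ (G.sh i - n₀)) k (fun a => z a τ) →
          nk (fun i : Sub G.sh n₀ => lam ^ (G.sh i - n₀)) k (fun a => z a τ) ≤ M →
          (lam ^ (n - n₀)) ^ (2 * k) * ap G.sh G.ty G.ρ b n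
            (fun i => ext (G := G) n₀ (fun a => z a τ) (Sum.inl i)) ^ 2 ≤ M := by
        intro n b hn k M hS hN
        refine le_trans ?_ hN
        have h1 := ap_sq_le G.sh G.ty G.ρ G.fin G.card G.pos b n
          (fun i => ext (G := G) n₀ (fun a => z a τ) (Sum.inl i))
        have hpos : (0:ℝ) ≤ (lam ^ (n - n₀)) ^ (2 * k) := by positivity
        refine (mul_le_mul_of_nonneg_left h1 hpos).trans ?_
        rw [Finset.mul_sum]
        have hp : ∀ i ∈ (G.fin n b).toFinset, n₀ ≤ G.sh i := by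
          intro i hi
          rw [Set.Finite.mem_toFinset] at hi
          have hi1 : G.sh i = n := hi.1
          rw [hi1]; exact hn
        classical
        rw [← Finset.sum_subtype_of_mem (p := fun i => n₀ ≤ G.sh i) _ hp]
        unfold nk
        refine le_trans (le_of_eq ?_) (hS.sum_le_tsum ((G.fin n b).toFinset.subtype _)
          fun a _ => sq_nonneg _)
        refine Finset.sum_congr rfl fun a ha => ?_
        rw [Finset.mem_subtype, Set.Finite.mem_toFinset] at ha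
        have ha1 : G.sh a.1 = n := ha.1
        have e2 : ext n₀ (fun a => z a τ) (Sum.inl a.1 : G.I ⊕ G.J) = z a τ := by
          simp [K1H54.NU.ext, a.2]
        rw [e2]
        simp only []
        rw [ha1, mul_pow, mul_comm 2 k, pow_mul _ k 2]
      have hmZ := shell m false hm 1 M₁ (hM₁ τ hτ').1 (hM₁ τ hτ').2
      have hmY := shell (m + 1) true (by omega) 0 M₀ (hM₀ τ hτ').1 (hM₀ τ hτ').2
      have hZ : G.Z m (ext n₀ fun a => z a τ) ^ 2 ≤ M₁ / (lam ^ (m - n₀)) ^ 2 := by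
        rw [le_div_iff₀ (by positivity), mul_comm]
        simpa [GS.Z] using hmZ
      have hY : |G.Y (m + 1) (ext n₀ fun a => z a τ)| ≤ √M₀ := by
        rw [mul_zero, pow_zero, one_mul] at hmY
        exact Real.abs_le_sqrt hmY
      rw [abs_mul, abs_mul, hcn, abs_of_pos (show 0 < c₀ * lam ^ m by positivity),
        abs_of_nonneg (sq_nonneg _)]
      gcongr

end Pool.Agent.K1H99.NU
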