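import Pool.Agent.K1H54.NU.Stm5

/-! The mean of damped quantities with a common source stays positive. -/

open Set Filter Topology MeasureTheory

set_option autoImplicit false

namespace Pool.Agent.K1H99.NU

open Matrix in
/-- Diagonalization of `diag d + C * (projection to the constants)`. -/
theorem spec (ι : Type) [Fintype ι] [Nonempty ι] (d : ι → ℝ) (C : ℝ)
    (hd : ∀ j, 0 ≤ d j ∧ d j ≤ C) :
    ∃ (e : ι → ι → ℝ) (μ : ι → ℝ), (∀ k, 0 ≤ μ k ∧ μ k ≤ 2 * C) ∧
      (∀ k (q : ι → ℝ), ∑ j, e k j * (d j * q j + C * ((∑ i, q i) / Fintype.card ι))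
        = μ k * ∑ j, e k j * q j) ∧
      (∀ q r : ι → ℝ, ∑ k, (∑ j, e k j * q j) * (∑ j, e k j * r j) = ∑ j, q j * r j) := by
  classical
  have hm : (0 : ℝ) < Fintype.card ι := by exact_mod_cast Fintype.card_pos
  obtain ⟨j0⟩ := ‹Nonempty ι›
  have hC : 0 ≤ C := (hd j0).1.trans (hd j0).2
  set A : Matrix ι ι ℝ := Matrix.diagonal d + Matrix.of (fun _ _ => C / Fintype.card ι) with hAdef
  have hA : A.IsHermitian := by
    ext i j
    by_cases hij : i = j
    · subst hij; simp [A]
    · simp [A, Matrix.diagonal_apply_ne _ hij, Matrix.diagonal_apply_ne' _ hij]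
  have hAt : Aᵀ = A := by
    have := hA.eq
    rwa [Matrix.conjTranspose_eq_transpose_of_trivial] at this
  have hAx : ∀ (x : ι → ℝ) (j : ι),
      (A *ᵥ x) j = d j * x j + C * ((∑ i, x i) / Fintype.card ι) := by
    intro x j
    simp only [hAdef, Matrix.add_mulVec, Pi.add_apply, Matrix.mulVec_diagonal]
    congr 1
    simp only [Matrix.mulVec, dotProduct, Matrix.of_apply]
    rw [← Finset.mul_sum]; ring
  set B := hA.eigenvectorBasis with hB
  have h2 : ∀ k (q : ι → ℝ), ∑ j, B k j * (d j * q j + C * ((∑ i, q i) / Fintype.card ι))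
        = hA.eigenvalues k * ∑ j, B k j * q j := by
    intro k q
    have e1 : ∑ j, B k j * (d j * q j + C * ((∑ i, q i) / Fintype.card ι))
        = (B k : ι → ℝ) ⬝ᵥ (A *ᵥ q) := by
      simp only [dotProduct, hAx]
    have e2 : (B k : ι → ℝ) ⬝ᵥ (A *ᵥ q) = (A *ᵥ (B k : ι → ℝ)) ⬝ᵥ q := by
      rw [Matrix.dotProduct_mulVec, ← Matrix.mulVec_transpose, hAt]
    rw [e1, e2, hA.mulVec_eigenvectorBasis k, smul_dotProduct]
    simp [dotProduct, hB]
  have h3 : ∀ q r : ι → ℝ, ∑ k, (∑ j, B k j * q j) * (∑ j, B k j * r j) = ∑ j, q j * r j := by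
    intro q r
    have := B.sum_inner_mul_inner (WithLp.toLp 2 q) (WithLp.toLp 2 r)
    simp only [PiLp.inner_apply, RCLike.inner_apply, conj_trivial] at this
    rw [show ∑ j, q j * r j = ∑ j, r j * q j from Finset.sum_congr rfl fun j _ => mul_comm _ _,
      ← this]
    refine Finset.sum_congr rfl fun k _ => ?_
    congr 1
    exact Finset.sum_congr rfl fun j _ => mul_comm _ _
  have hnorm : ∀ k, ∑ j, B k j * B k j = 1 := by
    intro k
    have h1 : inner ℝ (B k) (B k) = (1 : ℝ) := by
      rw [real_inner_self_eq_norm_sq, B.orthonormal.1 k]; norm_num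
    simp only [PiLp.inner_apply, RCLike.inner_apply, conj_trivial] at h1
    exact h1
  refine ⟨fun k j => B k j, hA.eigenvalues, fun k => ?_, h2, h3⟩
  have hk := h2 k (fun j => B k j)
  rw [hnorm k, mul_one] at hk
  have hsplit : ∑ j, B k j * (d j * B k j + C * ((∑ i, B k i) / Fintype.card ι))
      = ∑ j, d j * (B k j) ^ 2 + C * ((∑ i, B k i) ^ 2 / Fintype.card ι) := by
    have : ∀ j, B k j * (d j * B k j + C * ((∑ i, B k i) / Fintype.card ι))
        = d j * (B k j) ^ 2 + B k j * (C * ((∑ i, B k i) / Fintype.card ι)) := fun j => by ring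
    simp only [this, Finset.sum_add_distrib, ← Finset.sum_mul]
    ring
  rw [hsplit] at hk
  have hcs : (∑ i, B k i) ^ 2 ≤ Fintype.card ι * ∑ i, (B k i) ^ 2 := by
    have := sq_sum_le_card_mul_sum_sq (s := (Finset.univ : Finset ι)) (f := fun i => B k i)
    simpa using this
  have hn2 : ∑ j, (B k j) ^ 2 = 1 := by
    rw [← hnorm k]; exact Finset.sum_congr rfl fun j _ => by ring
  rw [hn2, mul_one] at hcs
  have hq1 : (∑ i, B k i) ^ 2 / Fintype.card ι ≤ 1 := by
    rw [div_le_one hm]; exact hcs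
  have hq0 : 0 ≤ (∑ i, B k i) ^ 2 / Fintype.card ι := by positivity
  have hs0 : 0 ≤ ∑ j, d j * (B k j) ^ 2 :=
    Finset.sum_nonneg fun j _ => mul_nonneg (hd j).1 (sq_nonneg _)
  have hs1 : ∑ j, d j * (B k j) ^ 2 ≤ C := by
    calc ∑ j, d j * (B k j) ^ 2 ≤ ∑ j, C * (B k j) ^ 2 :=
          Finset.sum_le_sum fun j _ => mul_le_mul_of_nonneg_right (hd j).2 (sq_nonneg _)
      _ = C := by rw [← Finset.mul_sum, hn2, mul_one]
  constructor
  · rw [← hk]; positivity
  · rw [← hk]
    nlinarith [mul_le_mul_of_nonneg_left hq1 hC]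

/-- Positivity for a cooperative system. -/
theorem coop (ι : Type) [Fintype ι] (u : ι → ℝ → ℝ) (μ a : ι → ℝ) (β g : ℝ → ℝ) (K : ℝ)
    (hμ : ∀ k, 0 ≤ μ k) (ha : ∀ k, 0 ≤ a k) (haK : ∀ k t, 0 ≤ t → a k * β t ≤ K)
    (hβ : ∀ t, 0 ≤ t → 0 ≤ β t)
    (hg : ∀ t, 0 ≤ t → 0 ≤ g t)
    (hu : ∀ k t, 0 ≤ t → HasDerivWithinAt (u k)
      (-(μ k * u k t) + a k * (β t * ∑ j, u j t + g t)) (Ici 0) t)
    (h0 : ∀ k, u k 0 = 0) : ∀ k t, 0 ≤ t → 0 ≤ u k t := by
  classical
  have hmin : ∀ x : ℝ, HasDerivAt (fun x : ℝ => (min x 0) ^ 2) (2 * min x 0) x := by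
    intro x
    rcases lt_trichotomy x 0 with hx | hx | hx
    · have h1 : HasDerivAt (fun x : ℝ => x ^ 2) (2 * x) x := by
        simpa using hasDerivAt_pow 2 x
      rw [min_eq_left hx.le]
      refine h1.congr_of_eventuallyEq ?_
      filter_upwards [Iio_mem_nhds hx] with y hy
      rw [min_eq_left (le_of_lt hy)]
    · subst hx
      rw [min_self, mul_zero, hasDerivAt_iff_isLittleO]
      simp only [min_self, ne_eq, OfNat.ofNat_ne_zero, not_false_eq_true, zero_pow, sub_zero,
        smul_zero]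
      have hO : (fun x : ℝ => (min x 0) ^ 2) =O[𝓝 0] (fun x : ℝ => x ^ 2) := by
        refine Asymptotics.IsBigO.of_bound 1 (Eventually.of_forall fun y => ?_)
        rw [one_mul, Real.norm_eq_abs, Real.norm_eq_abs, abs_pow, abs_pow]
        refine pow_le_pow_left₀ (abs_nonneg _) ?_ 2
        rcases le_total y 0 with hy | hy
        · rw [min_eq_left hy]
        · rw [min_eq_right hy, abs_zero]; exact abs_nonneg _
      refine hO.trans_isLittleO ?_
      have : (fun x : ℝ => x ^ 2) =o[𝓝 0] (fun x : ℝ => x ^ 1) :=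
        Asymptotics.isLittleO_pow_pow (by norm_num)
      simpa using this
    · rw [min_eq_right hx.le, mul_zero]
      refine (hasDerivAt_const x (0 : ℝ)).congr_of_eventuallyEq ?_
      filter_upwards [Ioi_mem_nhds hx] with y hy
      rw [min_eq_right (le_of_lt hy)]; norm_num
  set V : ℝ → ℝ := fun t => ∑ k, (min (u k t) 0) ^ 2 with hV
  set m : ℝ := (Fintype.card ι : ℝ) with hm
  have hm0 : 0 ≤ m := by positivity
  have hVd : ∀ t, 0 ≤ t → HasDerivWithinAt V (∑ k, 2 * min (u k t) 0 *
      (-(μ k * u k t) + a k * (β t * ∑ j, u j t + g t))) (Ici 0) t := by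
    intro t ht
    refine HasDerivWithinAt.fun_sum fun k _ => ?_
    exact (hmin (u k t)).comp_hasDerivWithinAt t (hu k t ht)
  have hle : ∀ t, 0 ≤ t → (∑ k, 2 * min (u k t) 0 *
      (-(μ k * u k t) + a k * (β t * ∑ j, u j t + g t))) ≤ 2 * K * m * V t := by
    intro t ht
    set S : ℝ := ∑ j, min (u j t) 0 with hS
    have hS0 : S ≤ 0 := Finset.sum_nonpos fun j _ => min_le_right _ _
    have hSu : S ≤ ∑ j, u j t := Finset.sum_le_sum fun j _ => min_le_left _ _
    have hcs : S ^ 2 ≤ m * V t := by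
      have := sq_sum_le_card_mul_sum_sq (s := (Finset.univ : Finset ι))
        (f := fun i => min (u i t) 0)
      simpa [hS, hV, hm] using this
    have hterm : ∀ k, 2 * min (u k t) 0 * (-(μ k * u k t) + a k * (β t * ∑ j, u j t + g t))
        ≤ 2 * K * S * min (u k t) 0 := by
      intro k
      have hn : min (u k t) 0 ≤ 0 := min_le_right _ _
      have e1 : min (u k t) 0 * u k t = (min (u k t) 0) ^ 2 := by
        rcases le_total (u k t) 0 with h | h
        · rw [min_eq_left h]; ring
        · rw [min_eq_right h]; ring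
      have e2 : 0 ≤ μ k * (min (u k t) 0) ^ 2 := mul_nonneg (hμ k) (sq_nonneg _)
      have e3 : min (u k t) 0 * (a k * g t) ≤ 0 :=
        mul_nonpos_of_nonpos_of_nonneg hn (mul_nonneg (ha k) (hg t ht))
      have hab : 0 ≤ a k * β t := mul_nonneg (ha k) (hβ t ht)
      have e4 : min (u k t) 0 * (a k * β t * ∑ j, u j t) ≤ min (u k t) 0 * (a k * β t * S) :=
        mul_le_mul_of_nonpos_left (mul_le_mul_of_nonneg_left hSu hab) hn
      have e5 : min (u k t) 0 * (a k * β t * S) ≤ min (u k t) 0 * (K * S) :=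
        mul_le_mul_of_nonpos_left (mul_le_mul_of_nonpos_right (haK k t ht) hS0) hn
      have e6 : 2 * min (u k t) 0 * (-(μ k * u k t) + a k * (β t * ∑ j, u j t + g t))
          = -(2 * (μ k * (min (u k t) 0) ^ 2)) + 2 * (min (u k t) 0 * (a k * β t * ∑ j, u j t))
            + 2 * (min (u k t) 0 * (a k * g t)) := by
        rw [← e1]; ring
      rw [e6]
      nlinarith
    calc (∑ k, 2 * min (u k t) 0 * (-(μ k * u k t) + a k * (β t * ∑ j, u j t + g t)))
        ≤ ∑ k, 2 * K * S * min (u k t) 0 := Finset.sum_le_sum fun k _ => hterm k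
      _ = 2 * K * S ^ 2 := by rw [← Finset.mul_sum]; ring
      _ ≤ 2 * K * m * V t := by
        by_cases hι : IsEmpty ι
        · simp [hS, hV, hm]
        · rw [not_isEmpty_iff] at hι
          obtain ⟨k0⟩ := hι
          have hK : 0 ≤ K := (mul_nonneg (ha k0) (hβ t ht)).trans (haK k0 t ht)
          nlinarith [mul_le_mul_of_nonneg_left hcs hK]
  have hanti : AntitoneOn (fun t => V t * Real.exp (-(2 * K * m * t))) (Ici 0) := by
    have hd : ∀ t, 0 ≤ t → HasDerivWithinAt (fun t => V t * Real.exp (-(2 * K * m * t)))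
        ((∑ k, 2 * min (u k t) 0 * (-(μ k * u k t) + a k * (β t * ∑ j, u j t + g t)))
          * Real.exp (-(2 * K * m * t))
          + V t * (Real.exp (-(2 * K * m * t)) * (-(2 * K * m * 1)))) (Ici 0) t := by
      intro t ht
      refine (hVd t ht).mul ?_
      exact (((hasDerivAt_id t).const_mul (2 * K * m)).neg.exp).hasDerivWithinAt
    refine antitoneOn_of_deriv_nonpos (convex_Ici 0)
      (fun t ht => (hd t ht).continuousWithinAt) ?_ ?_
    · intro t ht
      rw [interior_Ici] at ht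
      exact ((hd t (le_of_lt ht)).hasDerivAt (Ici_mem_nhds ht)).differentiableAt.differentiableWithinAt
    · intro t ht
      rw [interior_Ici] at ht
      rw [((hd t (le_of_lt ht)).hasDerivAt (Ici_mem_nhds ht)).deriv]
      have := hle t (le_of_lt ht)
      have he := Real.exp_pos (-(2 * K * m * t))
      nlinarith [mul_le_mul_of_nonneg_right this he.le]
  intro k t ht
  have h1 := hanti (mem_Ici.2 le_rfl) (mem_Ici.2 ht) ht
  have hV0 : V 0 = 0 := by simp [hV, h0]
  simp only [hV0, zero_mul] at h1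
  have h2 : V t ≤ 0 := by
    by_contra hcon
    push Not at hcon
    have := mul_pos hcon (Real.exp_pos (-(2 * K * m * t)))
    linarith
  have h3 : (min (u k t) 0) ^ 2 ≤ V t :=
    Finset.single_le_sum (f := fun k => (min (u k t) 0) ^ 2) (fun _ _ => sq_nonneg _)
      (Finset.mem_univ k)
  have h4 : min (u k t) 0 = 0 := by
    have : (min (u k t) 0) ^ 2 = 0 := le_antisymm (h3.trans h2) (sq_nonneg _)
    exact pow_eq_zero_iff (by norm_num) |>.1 this
  have := min_le_left (u k t) 0
  linarith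

theorem t_VOL : Pool.Agent.K1H54.NU.S_VOL := by
  intro ι _ _ d q P b g C hd hb hg _ _ hP hq h0
  have hm : (0 : ℝ) < Fintype.card ι := by exact_mod_cast Fintype.card_pos
  obtain ⟨e, μ, hμ, hA, hpar⟩ := spec ι d C hd
  set c : ι → ℝ := fun k => ∑ j, e k j * 1 with hc
  have hcsum : ∑ k, c k ^ 2 = Fintype.card ι := by
    have := hpar (fun _ => 1) (fun _ => 1)
    simp only [mul_one, Finset.sum_const, Finset.card_univ, nsmul_eq_mul] at this
    rw [← this]
    exact Finset.sum_congr rfl fun k _ => by simp only [hc, mul_one]; ring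
  set u : ι → ℝ → ℝ := fun k t => c k * ∑ j, e k j * q j t with hu
  have husum : ∀ t, ∑ k, u k t = Fintype.card ι * P t := by
    intro t
    have := hpar (fun _ => 1) (fun j => q j t)
    simp only [one_mul] at this
    rw [hP t, mul_div_cancel₀ _ hm.ne', ← this]
  have hck : ∀ k, c k ^ 2 ≤ Fintype.card ι := fun k => by
    rw [← hcsum]
    exact Finset.single_le_sum (f := fun k => c k ^ 2) (fun _ _ => sq_nonneg _)
      (Finset.mem_univ k)
  have hC : 0 ≤ C := (abs_nonneg _).trans (hb 0 le_rfl)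
  have hud : ∀ k t, 0 ≤ t → HasDerivWithinAt (u k)
      (-(μ k * u k t) + c k ^ 2 * ((b t + C) / Fintype.card ι * ∑ j, u j t + g t)) (Ici 0) t := by
    intro k t ht
    have h1 : HasDerivWithinAt (u k)
        (c k * ∑ j, e k j * (-(d j * q j t) + (b t * P t + g t))) (Ici 0) t := by
      refine HasDerivWithinAt.const_mul (c k) ?_
      refine HasDerivWithinAt.fun_sum fun j _ => ?_
      exact (hq j t ht).const_mul (e k j)
    have h2 := hA k (fun j => q j t)
    have h3 : ∑ j, e k j * (-(d j * q j t) + (b t * P t + g t))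
        = -(μ k * ∑ j, e k j * q j t) + c k * ((b t + C) * P t + g t) := by
      rw [← h2]
      simp only [← hP t, hc]
      rw [← Finset.sum_neg_distrib, Finset.sum_mul, ← Finset.sum_add_distrib]
      exact Finset.sum_congr rfl fun j _ => by ring
    rw [h3] at h1
    convert! h1 using 1
    rw [husum t]
    simp only [hu]
    field_simp
  have hupos := coop ι u μ (fun k => c k ^ 2) (fun t => (b t + C) / Fintype.card ι) g (2 * C)
    (fun k => (hμ k).1) (fun k => sq_nonneg _) (fun k t ht => by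
      have h1 := (abs_le.1 (hb t ht))
      have h2 : (b t + C) / Fintype.card ι * c k ^ 2 ≤ (b t + C) / Fintype.card ι * Fintype.card ι :=
        mul_le_mul_of_nonneg_left (hck k) (div_nonneg (by linarith) hm.le)
      rw [div_mul_cancel₀ _ hm.ne'] at h2
      calc c k ^ 2 * ((b t + C) / Fintype.card ι) = (b t + C) / Fintype.card ι * c k ^ 2 := by ring
        _ ≤ b t + C := h2
        _ ≤ 2 * C := by linarith)
    (fun t ht => div_nonneg (by linarith [(abs_le.1 (hb t ht)).1]) hm.le) hg hud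
    (fun k => by simp [hu, h0])
  have hPpos : ∀ t, 0 ≤ t → 0 ≤ P t := by
    intro t ht
    have : 0 ≤ ∑ k, u k t := Finset.sum_nonneg fun k _ => hupos k t ht
    rw [husum t] at this
    exact nonneg_of_mul_nonneg_right this hm
  -- derivative of P
  set R : ℝ → ℝ := fun t => ∑ k, u k t with hR
  have hRd : ∀ t, 0 ≤ t → HasDerivWithinAt R
      (∑ k, (-(μ k * u k t) + c k ^ 2 * ((b t + C) / Fintype.card ι * ∑ j, u j t + g t)))
      (Ici 0) t := fun t ht => HasDerivWithinAt.fun_sum fun k _ => hud k t ht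
  have hRge : ∀ t, 0 ≤ t → -(2 * C * R t) ≤
      ∑ k, (-(μ k * u k t) + c k ^ 2 * ((b t + C) / Fintype.card ι * ∑ j, u j t + g t)) := by
    intro t ht
    have : -(2 * C * R t) = ∑ k, (-(2 * C * u k t)) := by
      rw [Finset.sum_neg_distrib, ← Finset.mul_sum]
    rw [this]
    refine Finset.sum_le_sum fun k _ => ?_
    have h1 : μ k * u k t ≤ 2 * C * u k t :=
      mul_le_mul_of_nonneg_right (hμ k).2 (hupos k t ht)
    have h2 : 0 ≤ c k ^ 2 * ((b t + C) / Fintype.card ι * ∑ j, u j t + g t) := by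
      refine mul_nonneg (sq_nonneg _) (add_nonneg (mul_nonneg (div_nonneg ?_ hm.le) ?_) (hg t ht))
      · linarith [(abs_le.1 (hb t ht)).1]
      · exact Finset.sum_nonneg fun k _ => hupos k t ht
    linarith
  have hmono : MonotoneOn (fun t => R t * Real.exp (2 * C * t)) (Ici 0) := by
    have hd' : ∀ t, 0 ≤ t → HasDerivWithinAt (fun t => R t * Real.exp (2 * C * t))
        ((∑ k, (-(μ k * u k t) + c k ^ 2 * ((b t + C) / Fintype.card ι * ∑ j, u j t + g t)))
          * Real.exp (2 * C * t) + R t * (Real.exp (2 * C * t) * (2 * C * 1))) (Ici 0) t := by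
      intro t ht
      refine (hRd t ht).mul ?_
      exact (((hasDerivAt_id t).const_mul (2 * C)).exp).hasDerivWithinAt
    refine monotoneOn_of_deriv_nonneg (convex_Ici 0)
      (fun t ht => (hd' t ht).continuousWithinAt) ?_ ?_
    · intro t ht
      rw [interior_Ici] at ht
      exact ((hd' t (le_of_lt ht)).hasDerivAt (Ici_mem_nhds ht)).differentiableAt.differentiableWithinAt
    · intro t ht
      rw [interior_Ici] at ht
      rw [((hd' t (le_of_lt ht)).hasDerivAt (Ici_mem_nhds ht)).deriv]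
      have := hRge t (le_of_lt ht)
      have he := Real.exp_pos (2 * C * t)
      nlinarith [mul_le_mul_of_nonneg_right this he.le]
  intro s t hs hst
  refine ⟨hPpos s hs, ?_⟩
  have h1 := hmono (mem_Ici.2 hs) (mem_Ici.2 (hs.trans hst)) hst
  simp only [hR, husum] at h1
  have h2 : P s * Real.exp (2 * C * s) ≤ P t * Real.exp (2 * C * t) := by
    have : Fintype.card ι * (P s * Real.exp (2 * C * s))
        ≤ Fintype.card ι * (P t * Real.exp (2 * C * t)) := by linarith
    exact le_of_mul_le_mul_left this hm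
  have h3 : Real.exp (-(2 * C * (t - s))) = Real.exp (2 * C * s) * Real.exp (-(2 * C * t)) := by
    rw [← Real.exp_add]; ring_nf
  rw [h3]
  have h4 : Real.exp (2 * C * t) * Real.exp (-(2 * C * t)) = 1 := by
    rw [← Real.exp_add, add_neg_cancel, Real.exp_zero]
  calc Real.exp (2 * C * s) * Real.exp (-(2 * C * t)) * P s
      = (P s * Real.exp (2 * C * s)) * Real.exp (-(2 * C * t)) := by ring
    _ ≤ (P t * Real.exp (2 * C * t)) * Real.exp (-(2 * C * t)) :=
        mul_le_mul_of_nonneg_right h2 (Real.exp_pos _).le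
    _ = P t := by rw [mul_assoc, h4, mul_one]

end Pool.Agent.K1H99.NU
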